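import Mathlib

namespace Pool.Agent.Results.MP_67c61c_pr.LazyGap

open Finset Matrix

variable {d : ℕ}

/-- `M` is row-stochastic and `π` is a positive stationary probability vector of `M`. -/
def Chain (M : Matrix (Fin d) (Fin d) ℝ) (π : Fin d → ℝ) : Prop :=
  (∀ i j, 0 ≤ M i j) ∧ (∀ i, ∑ j, M i j = 1) ∧ (∀ i, 0 < π i) ∧ ∑ i, π i = 1 ∧
    ∀ j, ∑ i, π i * M i j = π j

/-- Time reversal `M*(i,j) = π(j) M(j,i) / π(i)`. -/
noncomputable def rev (π : Fin d → ℝ) (M : Matrix (Fin d) (Fin d) ℝ) : Matrix (Fin d) (Fin d) ℝ :=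
  Matrix.of fun i j => π j * M j i / π i

/-- Multiplicative reversiblization `M† = M* M`. -/
noncomputable def dag (π : Fin d → ℝ) (M : Matrix (Fin d) (Fin d) ℝ) : Matrix (Fin d) (Fin d) ℝ :=
  rev π M * M

/-- Second largest eigenvalue in Courant–Fischer form: the largest Rayleigh quotient in `L²(π)`
over unit vectors orthogonal to the constants. -/
noncomputable def lam2 (π : Fin d → ℝ) (A : Matrix (Fin d) (Fin d) ℝ) : ℝ :=
  sSup {r | ∃ f : Fin d → ℝ, ∑ i, π i * f i = 0 ∧ ∑ i, π i * f i ^ 2 = 1 ∧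
    r = ∑ i, π i * (f i * (A *ᵥ f) i)}

noncomputable def gap (π : Fin d → ℝ) (A : Matrix (Fin d) (Fin d) ℝ) : ℝ := 1 - lam2 π A

/-- Pseudo spectral gap: supremum over `k ≥ 1` of `γ((M^k)†) / k`. -/
noncomputable def gps (π : Fin d → ℝ) (M : Matrix (Fin d) (Fin d) ℝ) : ℝ :=
  ⨆ k : ℕ, gap π (dag π (M ^ (k + 1))) / ((k : ℝ) + 1)

/-- The `α`-lazy version. -/
def lazy (α : ℝ) (M : Matrix (Fin d) (Fin d) ℝ) : Matrix (Fin d) (Fin d) ℝ :=
  α • (1 : Matrix (Fin d) (Fin d) ℝ) + (1 - α) • M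

def N (π f : Fin d → ℝ) : ℝ := ∑ i, π i * f i ^ 2

lemma N_nonneg {π : Fin d → ℝ} (h : ∀ i, 0 < π i) (f : Fin d → ℝ) : 0 ≤ N π f :=
  sum_nonneg fun i _ => mul_nonneg (h i).le (sq_nonneg _)

lemma adj {π : Fin d → ℝ} (h : ∀ i, 0 < π i) (A : Matrix (Fin d) (Fin d) ℝ) (f : Fin d → ℝ) :
    ∑ i, π i * (f i * (dag π A *ᵥ f) i) = N π (A *ᵥ f) := by
  rw [dag, ← mulVec_mulVec]
  set g := A *ᵥ f with hg
  have e : ∀ i, π i * (f i * (rev π A *ᵥ g) i) = ∑ j, π j * g j * (A j i * f i) := by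
    intro i
    simp only [mulVec, dotProduct, rev, of_apply, mul_sum]
    refine sum_congr rfl fun j _ => ?_
    have := (h i).ne'
    field_simp
  simp only [e]
  rw [sum_comm, N]
  refine sum_congr rfl fun j _ => ?_
  rw [← mul_sum]
  have : ∑ i, A j i * f i = g j := rfl
  rw [this]; ring

lemma contr {M : Matrix (Fin d) (Fin d) ℝ} {π : Fin d → ℝ} (h : Chain M π) (f : Fin d → ℝ) :
    N π (M *ᵥ f) ≤ N π f := by
  obtain ⟨h0, h1, h2, -, h4⟩ := h
  have e : ∀ i, (M *ᵥ f) i ^ 2 ≤ ∑ j, M i j * f j ^ 2 := by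
    intro i
    have hm : (M *ᵥ f) i = ∑ j, M i j * f j := rfl
    have : 0 ≤ ∑ j, M i j * (f j - (M *ᵥ f) i) ^ 2 :=
      sum_nonneg fun j _ => mul_nonneg (h0 i j) (sq_nonneg _)
    have e2 : ∑ j, M i j * (f j - (M *ᵥ f) i) ^ 2 = ∑ j, M i j * f j ^ 2 -
        2 * (M *ᵥ f) i * ∑ j, M i j * f j + (M *ᵥ f) i ^ 2 * ∑ j, M i j := by
      rw [mul_sum, mul_sum, ← sum_sub_distrib, ← sum_add_distrib]
      exact sum_congr rfl fun j _ => by ring
    rw [e2, h1, ← hm] at this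
    linarith
  calc N π (M *ᵥ f) ≤ ∑ i, π i * ∑ j, M i j * f j ^ 2 :=
        sum_le_sum fun i _ => mul_le_mul_of_nonneg_left (e i) (h2 i).le
    _ = ∑ j, (∑ i, π i * M i j) * f j ^ 2 := by
        simp only [mul_sum, sum_mul]
        rw [sum_comm]
        exact sum_congr rfl fun j _ => sum_congr rfl fun i _ => by ring
    _ = N π f := by simp only [h4, N]

lemma contr_pow {M : Matrix (Fin d) (Fin d) ℝ} {π : Fin d → ℝ} (h : Chain M π) (k : ℕ) :
    ∀ f, N π (M ^ k *ᵥ f) ≤ N π f := by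
  induction k with
  | zero => intro f; simp
  | succ k ih => intro f; rw [pow_succ, ← mulVec_mulVec]; exact (ih _).trans (contr h f)

lemma N_convex {π : Fin d → ℝ} (h : ∀ i, 0 < π i) (α : ℝ) (h0 : 0 ≤ α) (h1 : α ≤ 1)
    (u v : Fin d → ℝ) : N π (α • u + (1 - α) • v) ≤ α * N π u + (1 - α) * N π v := by
  unfold N
  rw [mul_sum, mul_sum, ← sum_add_distrib]
  refine sum_le_sum fun i _ => ?_
  simp only [Pi.add_apply, Pi.smul_apply, smul_eq_mul]
  nlinarith [mul_nonneg (h i).le (mul_nonneg (mul_nonneg h0 (sub_nonneg.mpr h1))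
    (sq_nonneg (u i - v i)))]

lemma lazy_pow {M : Matrix (Fin d) (Fin d) ℝ} {π : Fin d → ℝ} (h : Chain M π) (α : ℝ)
    (h0 : 0 ≤ α) (h1 : α ≤ 1) (k : ℕ) : ∀ f, N π (lazy α M ^ k *ᵥ f) ≤
      (1 - α) ^ k * N π (M ^ k *ᵥ f) + (1 - (1 - α) ^ k) * N π f := by
  induction k with
  | zero => intro f; simp
  | succ k ih =>
    intro f
    have hθ : 0 ≤ (1 - α) ^ k := pow_nonneg (by linarith) k
    have hθ1 : (1 - α) ^ k ≤ 1 := pow_le_one₀ (by linarith) (by linarith)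
    have e : lazy α M ^ (k + 1) *ᵥ f =
        α • (lazy α M ^ k *ᵥ f) + (1 - α) • (lazy α M ^ k *ᵥ (M *ᵥ f)) := by
      rw [pow_succ, ← mulVec_mulVec, ← mulVec_smul, ← mulVec_smul, ← mulVec_add]
      congr 1
      simp [lazy, add_mulVec, smul_mulVec]
    rw [e]
    refine (N_convex h.2.2.1 α h0 h1 _ _).trans ?_
    have a1 : N π (lazy α M ^ k *ᵥ f) ≤ N π f := by
      have := mul_le_mul_of_nonneg_left (contr_pow h k f) hθ
      linarith [ih f]
    have a2 := ih (M *ᵥ f)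
    rw [mulVec_mulVec f (M ^ k) M, ← pow_succ] at a2
    have a3 := mul_le_mul_of_nonneg_left (contr h f) (sub_nonneg.mpr hθ1)
    have a4 := mul_le_mul_of_nonneg_left a1 h0
    have a5 := mul_le_mul_of_nonneg_left (a2.trans (add_le_add le_rfl a3)) (sub_nonneg.mpr h1)
    rw [pow_succ (1 - α)]
    nlinarith

lemma lam2_nonneg {π : Fin d → ℝ} (h : ∀ i, 0 < π i) (A : Matrix (Fin d) (Fin d) ℝ) :
    0 ≤ lam2 π (dag π A) := by
  refine Real.sSup_nonneg ?_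
  rintro _ ⟨f, -, -, rfl⟩
  rw [adj h]; exact N_nonneg h _

lemma le_lam2 {M : Matrix (Fin d) (Fin d) ℝ} {π : Fin d → ℝ} (h : Chain M π) (k : ℕ)
    (f : Fin d → ℝ) (f0 : ∑ i, π i * f i = 0) (f1 : ∑ i, π i * f i ^ 2 = 1) :
    N π (M ^ k *ᵥ f) ≤ lam2 π (dag π (M ^ k)) := by
  refine le_csSup ⟨1, ?_⟩ ⟨f, f0, f1, (adj h.2.2.1 _ f).symm⟩
  rintro _ ⟨g, -, g1, rfl⟩
  rw [adj h.2.2.1, ← g1]
  exact contr_pow h k g

lemma gap_lazy {M : Matrix (Fin d) (Fin d) ℝ} {π : Fin d → ℝ} (h : Chain M π) (α : ℝ)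
    (h0 : 0 ≤ α) (h1 : α ≤ 1) (k : ℕ) :
    (1 - α) ^ k * gap π (dag π (M ^ k)) ≤ gap π (dag π (lazy α M ^ k)) := by
  have hθ : 0 ≤ (1 - α) ^ k := pow_nonneg (by linarith) k
  have hθ1 : (1 - α) ^ k ≤ 1 := pow_le_one₀ (by linarith) (by linarith)
  have hl := lam2_nonneg h.2.2.1 (M ^ k)
  have : lam2 π (dag π (lazy α M ^ k)) ≤
      (1 - α) ^ k * lam2 π (dag π (M ^ k)) + (1 - (1 - α) ^ k) := by
    refine Real.sSup_le ?_ (by nlinarith)
    rintro _ ⟨f, f0, f1, rfl⟩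
    rw [adj h.2.2.1]
    have a1 := lazy_pow h α h0 h1 k f
    have a2 := mul_le_mul_of_nonneg_left (le_lam2 h k f f0 f1) hθ
    have : N π f = 1 := f1
    rw [this] at a1
    linarith
  unfold gap
  linarith

lemma bdd {π : Fin d → ℝ} (h : ∀ i, 0 < π i) (A : Matrix (Fin d) (Fin d) ℝ) :
    BddAbove (Set.range fun k : ℕ => gap π (dag π (A ^ (k + 1))) / ((k : ℝ) + 1)) := by
  refine ⟨1, ?_⟩
  rintro _ ⟨k, rfl⟩
  have := lam2_nonneg h (A ^ (k + 1))
  have hk : (0 : ℝ) ≤ k := Nat.cast_nonneg k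
  rw [div_le_one (by positivity), gap]
  linarith

theorem result : ∃ F : ℝ → ℝ → ℝ,
    (∀ α ∈ Set.Ioo (0 : ℝ) 1, ∀ g ∈ Set.Ioc (0 : ℝ) 1, 0 < F α g) ∧
    ∀ (d : ℕ) (M : Matrix (Fin d) (Fin d) ℝ) (π : Fin d → ℝ), Chain M π →
      ∀ α ∈ Set.Ioo (0 : ℝ) 1, F α (gps π M) ≤ gps π (lazy α M) := by
  refine ⟨fun α g => (1 - α) ^ (2 / g) * (g / 2), fun α hα g hg => ?_,
    fun d M π h α hα => ?_⟩
  · exact mul_pos (Real.rpow_pos_of_pos (by linarith [hα.2]) _) (by linarith [hg.1])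
  · rcases le_or_gt (gps π M) 0 with hg | hg
    · refine le_trans (mul_nonpos_of_nonneg_of_nonpos
        (Real.rpow_nonneg (by linarith [hα.2]) _) (by linarith)) ?_
      refine le_trans ?_ (le_ciSup (bdd h.2.2.1 (lazy α M)) 0)
      have h1 := gap_lazy h α hα.1.le hα.2.le (0 + 1)
      have h2 : lam2 π (dag π (M ^ (0 + 1))) ≤ 1 := by
        refine Real.sSup_le ?_ zero_le_one
        rintro _ ⟨g, -, g1, rfl⟩
        rw [adj h.2.2.1, ← g1]
        exact contr_pow h _ g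
      refine div_nonneg (le_trans (mul_nonneg (pow_nonneg (by linarith [hα.2]) _) ?_) h1)
        (by positivity)
      unfold gap; linarith
    obtain ⟨k, hk⟩ := exists_lt_of_lt_ciSup (show gps π M / 2 < gps π M by linarith)
    refine le_trans ?_ (le_ciSup (bdd h.2.2.1 (lazy α M)) k)
    have hk0 : (0 : ℝ) < (k : ℝ) + 1 := by positivity
    have h1 := gap_lazy h α hα.1.le hα.2.le (k + 1)
    have hle : gap π (dag π (M ^ (k + 1))) ≤ 1 := by
      have := lam2_nonneg h.2.2.1 (M ^ (k + 1))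
      unfold gap; linarith
    have h2 : ((k + 1 : ℕ) : ℝ) ≤ 2 / gps π M := by
      rw [lt_div_iff₀ hk0] at hk
      rw [le_div_iff₀ hg]
      push_cast
      linarith
    have h3 : (1 - α) ^ (2 / gps π M) ≤ (1 - α) ^ (k + 1) := by
      rw [← Real.rpow_natCast]
      exact Real.rpow_le_rpow_of_exponent_ge (by linarith [hα.2]) (by linarith [hα.1]) h2
    calc (1 - α) ^ (2 / gps π M) * (gps π M / 2)
        ≤ (1 - α) ^ (k + 1) * (gap π (dag π (M ^ (k + 1))) / ((k : ℝ) + 1)) :=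
          mul_le_mul h3 hk.le (by linarith) (pow_nonneg (by linarith [hα.2]) _)
      _ ≤ _ := by
          rw [← mul_div_assoc]
          exact div_le_div_of_nonneg_right h1 hk0.le

end Pool.Agent.Results.MP_67c61c_pr.LazyGap
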